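import Mathlib

set_option autoImplicit false

/-!
# MP_fdacb0_an: a `p`-Banach space which is its own Lipschitz free `p`-space

For every `0 < p ≤ 1` we construct an infinite-dimensional `p`-Banach space `X` whose Lipschitz
free `p`-space is isometrically isomorphic to `X`.

The space is the completion of a term model: the real vector space `V` generated freely by one
vector `e` and a map `δ : V → V` subject to `δ 0 = 0` and `δ e = e`, under the largest `p`-seminorm
with `‖e‖ ≤ 1` and `‖δ x - δ y‖ ≤ ‖x - y‖`.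
-/

namespace Pool.Agent.Results.MP_fdacb0_an.FreeFixedPoint

open Filter Topology UniformSpace

/-- A `p`-Banach space: a real vector space with a `p`-norm `N` (so `N (t x) = |t| N x` and
`N (x + y) ^ p ≤ N x ^ p + N y ^ p`), complete for the metric `(x, y) ↦ N (x - y) ^ p`. -/
structure PBanach (p : ℝ) where
  /-- the underlying set -/
  carrier : Type
  [addCommGroup : AddCommGroup carrier]
  [module : Module ℝ carrier]
  /-- the `p`-norm -/
  N : carrier → ℝ
  N_nonneg : ∀ x, 0 ≤ N x
  N_eq_zero : ∀ x, N x = 0 → x = 0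
  N_smul : ∀ (t : ℝ) (x : carrier), N (t • x) = |t| * N x
  N_add : ∀ x y, N (x + y) ^ p ≤ N x ^ p + N y ^ p
  complete : ∀ u : ℕ → carrier,
    (∀ ε : ℝ, 0 < ε → ∃ n₀ : ℕ, ∀ m ≥ n₀, ∀ n ≥ n₀, N (u m - u n) ^ p < ε) →
    ∃ x, ∀ ε : ℝ, 0 < ε → ∃ n₀ : ℕ, ∀ n ≥ n₀, N (u n - x) ^ p < ε

attribute [instance] PBanach.addCommGroup PBanach.module

/-- `(F, δ)` is the Lipschitz free `p`-space over the pointed `p`-metric space `(M, d, o)`,
expressed by its universal property: `δ o = 0`, `δ` is `1`-Lipschitz, and every Lipschitz map `f`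
from `M` into a `p`-Banach space `Y` with `f o = 0` is `T ∘ δ` for a unique bounded linear
`T : F → Y`, whose norm is at most the Lipschitz constant of `f` (hence equal to it). -/
structure IsLipschitzFree {p : ℝ} {M : Type} (d : M → M → ℝ) (o : M) (F : PBanach p)
    (δ : M → F.carrier) : Prop where
  map_base : δ o = 0
  lipschitz : ∀ x y, F.N (δ x - δ y) ≤ d x y
  lift : ∀ (Y : PBanach p) (f : M → Y.carrier) (L : ℝ), 0 ≤ L → f o = 0 →
    (∀ x y, Y.N (f x - f y) ≤ L * d x y) →
    ∃ T : F.carrier →ₗ[ℝ] Y.carrier, (∀ v, Y.N (T v) ≤ L * F.N v) ∧ ∀ x, T (δ x) = f x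
  unique : ∀ (Y : PBanach p) (T T' : F.carrier →ₗ[ℝ] Y.carrier),
    (∃ C : ℝ, ∀ v, Y.N (T v) ≤ C * F.N v) → (∃ C : ℝ, ∀ v, Y.N (T' v) ≤ C * F.N v) →
    (∀ x, T (δ x) = T' (δ x)) → T = T'

/-! ### The term model -/

/-- Terms. -/
inductive Tm : Type
  | e : Tm
  | zero : Tm
  | add (a b : Tm) : Tm
  | smul (r : ℝ) (a : Tm) : Tm
  | delta (a : Tm) : Tm

/-- The relations of a real vector space together with `δ 0 = 0` and `δ e = e`. -/
inductive Rel : Tm → Tm → Prop
  | add_comm (a b : Tm) : Rel (Tm.add a b) (Tm.add b a)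
  | add_assoc (a b c : Tm) : Rel (Tm.add (Tm.add a b) c) (Tm.add a (Tm.add b c))
  | zero_add (a : Tm) : Rel (Tm.add Tm.zero a) a
  | neg_add (a : Tm) : Rel (Tm.add (Tm.smul (-1) a) a) Tm.zero
  | smul_add (r : ℝ) (a b : Tm) :
      Rel (Tm.smul r (Tm.add a b)) (Tm.add (Tm.smul r a) (Tm.smul r b))
  | add_smul (r s : ℝ) (a : Tm) :
      Rel (Tm.smul (r + s) a) (Tm.add (Tm.smul r a) (Tm.smul s a))
  | mul_smul (r s : ℝ) (a : Tm) : Rel (Tm.smul (r * s) a) (Tm.smul r (Tm.smul s a))
  | one_smul (a : Tm) : Rel (Tm.smul 1 a) a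
  | delta_zero : Rel (Tm.delta Tm.zero) Tm.zero
  | delta_e : Rel (Tm.delta Tm.e) Tm.e
  | add_left (a b c : Tm) (h : Rel a b) : Rel (Tm.add a c) (Tm.add b c)
  | add_right (a b c : Tm) (h : Rel a b) : Rel (Tm.add c a) (Tm.add c b)
  | smul_congr (r : ℝ) (a b : Tm) (h : Rel a b) : Rel (Tm.smul r a) (Tm.smul r b)
  | delta_congr (a b : Tm) (h : Rel a b) : Rel (Tm.delta a) (Tm.delta b)

/-- The term model. -/
def V : Type := Quot Rel

/-- The class of a term. -/
def mk (a : Tm) : V := Quot.mk Rel a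

instance : Add V :=
  ⟨Quot.map₂ Tm.add (fun _ _ _ h => Rel.add_right _ _ _ h) (fun _ _ _ h => Rel.add_left _ _ _ h)⟩
instance : Zero V := ⟨mk Tm.zero⟩
instance : SMul ℝ V := ⟨fun r => Quot.map (Tm.smul r) (fun _ _ h => Rel.smul_congr r _ _ h)⟩
instance : Neg V := ⟨fun v => (-1 : ℝ) • v⟩

/-- The generator. -/
def e : V := mk Tm.e

/-- The map `δ`. -/
def dlt : V → V := Quot.map Tm.delta (fun _ _ h => Rel.delta_congr _ _ h)

lemma mk_add (a b : Tm) : mk (Tm.add a b) = mk a + mk b := rfl
lemma mk_zero : mk Tm.zero = 0 := rfl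
lemma mk_smul (r : ℝ) (a : Tm) : mk (Tm.smul r a) = r • mk a := rfl
lemma mk_e : mk Tm.e = e := rfl
lemma mk_delta (a : Tm) : mk (Tm.delta a) = dlt (mk a) := rfl

lemma mk_surj (v : V) : ∃ a, mk a = v := Quot.exists_rep v

instance : AddCommGroup V :=
  { AddGroup.ofLeftAxioms
      (by
        intro a b c
        obtain ⟨a, rfl⟩ := mk_surj a
        obtain ⟨b, rfl⟩ := mk_surj b
        obtain ⟨c, rfl⟩ := mk_surj c
        exact Quot.sound (Rel.add_assoc a b c))
      (by
        intro a
        obtain ⟨a, rfl⟩ := mk_surj a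
        exact Quot.sound (Rel.zero_add a))
      (by
        intro a
        obtain ⟨a, rfl⟩ := mk_surj a
        exact Quot.sound (Rel.neg_add a)) with
    add_comm := by
      intro a b
      obtain ⟨a, rfl⟩ := mk_surj a
      obtain ⟨b, rfl⟩ := mk_surj b
      exact Quot.sound (Rel.add_comm a b) }

instance : Module ℝ V := Module.ofMinimalAxioms
  (by
    intro r a b
    obtain ⟨a, rfl⟩ := mk_surj a
    obtain ⟨b, rfl⟩ := mk_surj b
    exact Quot.sound (Rel.smul_add r a b))
  (by
    intro r s a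
    obtain ⟨a, rfl⟩ := mk_surj a
    exact Quot.sound (Rel.add_smul r s a))
  (by
    intro r s a
    obtain ⟨a, rfl⟩ := mk_surj a
    exact Quot.sound (Rel.mul_smul r s a))
  (by
    intro a
    obtain ⟨a, rfl⟩ := mk_surj a
    exact Quot.sound (Rel.one_smul a))

lemma dlt_zero : dlt 0 = 0 := Quot.sound Rel.delta_zero

lemma dlt_e : dlt e = e := Quot.sound Rel.delta_e

/-- Induction on the term model. -/
lemma V_induction {P : V → Prop} (v : V) (he : P e) (h0 : P 0)
    (hadd : ∀ v w, P v → P w → P (v + w)) (hsmul : ∀ (r : ℝ) v, P v → P (r • v))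
    (hdlt : ∀ v, P v → P (dlt v)) : P v := by
  obtain ⟨a, rfl⟩ := mk_surj v
  induction a with
  | e => exact he
  | zero => exact h0
  | add a b iha ihb => exact hadd _ _ iha ihb
  | smul r a ih => exact hsmul r _ ih
  | delta a ih => exact hdlt _ ih

section lift

variable {Y : Type*} [AddCommGroup Y] [Module ℝ Y]

/-- Evaluation of terms determined by a value for `e` and a value for each `δ`-term. -/
def evalTm (y : Y) (f : V → Y) : Tm → Y
  | Tm.e => y
  | Tm.zero => 0
  | Tm.add a b => evalTm y f a + evalTm y f b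
  | Tm.smul r a => r • evalTm y f a
  | Tm.delta a => f (mk a)

lemma evalTm_rel (f : V → Y) (h0 : f 0 = 0) {a b : Tm} (h : Rel a b) :
    evalTm (f e) f a = evalTm (f e) f b := by
  induction h with
  | add_comm a b => exact add_comm _ _
  | add_assoc a b c => exact add_assoc _ _ _
  | zero_add a => exact zero_add _
  | neg_add a =>
    show (-1 : ℝ) • evalTm (f e) f a + evalTm (f e) f a = 0
    rw [neg_one_smul, neg_add_cancel]
  | smul_add r a b => exact smul_add _ _ _
  | add_smul r s a => exact add_smul _ _ _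
  | mul_smul r s a => exact mul_smul _ _ _
  | one_smul a => exact one_smul _ _
  | delta_zero => exact h0
  | delta_e => rfl
  | add_left a b c h ih => exact congrArg (· + _) ih
  | add_right a b c h ih => exact congrArg (_ + ·) ih
  | smul_congr r a b h ih => exact congrArg (r • ·) ih
  | delta_congr a b h ih => exact congrArg f (Quot.sound h)

/-- The linear map `T : V → Y` with `T (δ x) = f x`. -/
def liftV (f : V → Y) (h0 : f 0 = 0) : V →ₗ[ℝ] Y where
  toFun := Quot.lift (evalTm (f e) f) (fun _ _ h => evalTm_rel f h0 h)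
  map_add' := by
    intro a b
    obtain ⟨a, rfl⟩ := mk_surj a
    obtain ⟨b, rfl⟩ := mk_surj b
    rfl
  map_smul' := by
    intro r a
    obtain ⟨a, rfl⟩ := mk_surj a
    rfl

lemma liftV_dlt (f : V → Y) (h0 : f 0 = 0) (x : V) : liftV f h0 (dlt x) = f x := by
  obtain ⟨a, rfl⟩ := mk_surj x
  rfl

end lift

/-- The evaluation of terms used for the barycentre functional. -/
def phiTm : Tm → ℝ
  | Tm.e => 1
  | Tm.zero => 0
  | Tm.add a b => phiTm a + phiTm b
  | Tm.smul r a => r * phiTm a
  | Tm.delta a => phiTm a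

lemma phiTm_rel {a b : Tm} (h : Rel a b) : phiTm a = phiTm b := by
  induction h with
  | add_comm a b => exact add_comm _ _
  | add_assoc a b c => exact add_assoc _ _ _
  | zero_add a => exact zero_add _
  | neg_add a =>
    show (-1 : ℝ) * phiTm a + phiTm a = 0
    ring
  | smul_add r a b => exact mul_add _ _ _
  | add_smul r s a => exact add_mul _ _ _
  | mul_smul r s a => exact mul_assoc _ _ _
  | one_smul a => exact one_mul _
  | delta_zero => rfl
  | delta_e => rfl
  | add_left a b c h ih => exact congrArg (· + _) ih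
  | add_right a b c h ih => exact congrArg (_ + ·) ih
  | smul_congr r a b h ih => exact congrArg (r * ·) ih
  | delta_congr a b h ih => exact ih

/-- The barycentre functional `φ : V → ℝ` with `φ e = 1` and `φ (δ x) = φ x`. -/
def phi : V →ₗ[ℝ] ℝ where
  toFun := Quot.lift phiTm (fun _ _ h => phiTm_rel h)
  map_add' := by
    intro a b
    obtain ⟨a, rfl⟩ := mk_surj a
    obtain ⟨b, rfl⟩ := mk_surj b
    rfl
  map_smul' := by
    intro r a
    obtain ⟨a, rfl⟩ := mk_surj a
    rfl

lemma phi_e : phi e = 1 := rfl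

lemma phi_dlt (x : V) : phi (dlt x) = phi x := by
  obtain ⟨a, rfl⟩ := mk_surj x
  rfl

/-! ### The largest admissible seminorm -/

/-- `p`-th powers of `p`-seminorms. -/
structure IsQ (p : ℝ) (q : V → ℝ) : Prop where
  nonneg : ∀ v, 0 ≤ q v
  add_le : ∀ v w, q (v + w) ≤ q v + q w
  smul : ∀ (r : ℝ) v, q (r • v) = |r| ^ p * q v

/-- Admissible functions. -/
structure Adm (p : ℝ) (q : V → ℝ) : Prop extends IsQ p q where
  e_le : q e ≤ 1
  dlt_le : ∀ x y, q (dlt x - dlt y) ≤ q (x - y)

variable {p : ℝ}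

lemma IsQ.zero (hp : 0 < p) {q : V → ℝ} (h : IsQ p q) : q 0 = 0 := by
  have := h.smul 0 0
  rwa [smul_zero, abs_zero, Real.zero_rpow hp.ne', zero_mul] at this

lemma IsQ.neg {q : V → ℝ} (h : IsQ p q) (v : V) : q (-v) = q v := by
  have := h.smul (-1) v
  rwa [neg_one_smul, abs_neg, abs_one, Real.one_rpow, one_mul] at this

lemma adm_zero : Adm p (fun _ => 0) where
  nonneg _ := le_rfl
  add_le _ _ := by simp
  smul _ _ := by simp
  e_le := zero_le_one
  dlt_le _ _ := le_rfl

lemma bdd (hp : 0 < p) (v : V) : ∃ B : ℝ, ∀ q, Adm p q → q v ≤ B := by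
  induction v using V_induction with
  | he => exact ⟨1, fun q hq => hq.e_le⟩
  | h0 => exact ⟨0, fun q hq => (hq.toIsQ.zero hp).le⟩
  | hadd v w ihv ihw =>
    obtain ⟨B, hB⟩ := ihv
    obtain ⟨C, hC⟩ := ihw
    exact ⟨B + C, fun q hq => (hq.add_le v w).trans (add_le_add (hB q hq) (hC q hq))⟩
  | hsmul r v ih =>
    obtain ⟨B, hB⟩ := ih
    refine ⟨|r| ^ p * B, fun q hq => ?_⟩
    rw [hq.smul]
    exact mul_le_mul_of_nonneg_left (hB q hq) (by positivity)
  | hdlt v ih =>
    obtain ⟨B, hB⟩ := ih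
    refine ⟨B, fun q hq => ?_⟩
    have := hq.dlt_le v 0
    rw [dlt_zero, sub_zero, sub_zero] at this
    exact this.trans (hB q hq)

/-- The largest admissible function. -/
noncomputable def Q (p : ℝ) (v : V) : ℝ := sSup {r | ∃ q, Adm p q ∧ q v = r}

lemma le_Q (hp : 0 < p) {q : V → ℝ} (hq : Adm p q) (v : V) : q v ≤ Q p v := by
  obtain ⟨B, hB⟩ := bdd hp v
  apply le_csSup
  · refine ⟨B, ?_⟩
    rintro _ ⟨q', hq', rfl⟩
    exact hB q' hq'
  · exact ⟨q, hq, rfl⟩

lemma Q_le {v : V} {B : ℝ} (h : ∀ q, Adm p q → q v ≤ B) : Q p v ≤ B := by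
  have hne : {r | ∃ q, Adm p q ∧ q v = r}.Nonempty := ⟨0, _, adm_zero, rfl⟩
  apply csSup_le hne
  rintro _ ⟨q', hq', rfl⟩
  exact h q' hq'

lemma adm_Q (hp : 0 < p) : Adm p (Q p) where
  nonneg v := le_Q hp adm_zero v
  add_le v w := Q_le fun q hq =>
    (hq.add_le v w).trans (add_le_add (le_Q hp hq v) (le_Q hp hq w))
  smul r v := by
    apply le_antisymm
    · apply Q_le
      intro q hq
      rw [hq.smul]
      exact mul_le_mul_of_nonneg_left (le_Q hp hq v) (by positivity)
    · rcases eq_or_ne r 0 with hr | hr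
      · rw [hr, abs_zero, Real.zero_rpow hp.ne', zero_mul]
        exact le_Q hp adm_zero _
      · have hr' : 0 < |r| ^ p := Real.rpow_pos_of_pos (abs_pos.mpr hr) p
        rw [← le_div_iff₀' hr']
        apply Q_le
        intro q hq
        rw [le_div_iff₀' hr', ← hq.smul]
        exact le_Q hp hq _
  e_le := Q_le fun q hq => hq.e_le
  dlt_le x y := Q_le fun q hq => (hq.dlt_le x y).trans (le_Q hp hq _)

/-- The key maximality property. -/
lemma le_Q_of_dlt (hp : 0 < p) {q : V → ℝ} (hq : IsQ p q)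
    (h : ∀ x y, q (dlt x - dlt y) ≤ Q p (x - y)) (v : V) : q v ≤ Q p v := by
  have hQ := adm_Q hp
  have hmax : Adm p (fun v => max (q v) (Q p v)) := by
    refine ⟨⟨fun v => le_max_of_le_left (hq.nonneg v), fun v w => ?_, fun r v => ?_⟩, ?_, ?_⟩
    · apply max_le
      · exact (hq.add_le v w).trans (add_le_add (le_max_left _ _) (le_max_left _ _))
      · exact (hQ.add_le v w).trans (add_le_add (le_max_right _ _) (le_max_right _ _))
    · show max (q (r • v)) (Q p (r • v)) = |r| ^ p * max (q v) (Q p v)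
      rw [hq.smul, hQ.smul, mul_max_of_nonneg _ _ (by positivity)]
    · apply max_le _ hQ.e_le
      have := h e 0
      rw [dlt_e, dlt_zero, sub_zero] at this
      exact this.trans hQ.e_le
    · intro x y
      apply max_le
      · exact (h x y).trans (le_max_right _ _)
      · exact (hQ.dlt_le x y).trans (le_max_right _ _)
  exact (le_max_left _ _).trans (le_Q hp hmax v)

lemma abs_rpow_add_le (hp : 0 < p) (hp1 : p ≤ 1) (a b : ℝ) :
    |a + b| ^ p ≤ |a| ^ p + |b| ^ p :=
  (Real.rpow_le_rpow (abs_nonneg _) (abs_add_le a b) hp.le).trans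
    (Real.rpow_add_le_add_rpow (abs_nonneg _) (abs_nonneg _) hp.le hp1)

lemma phi_le_Q (hp : 0 < p) (hp1 : p ≤ 1) (v : V) : |phi v| ^ p ≤ Q p v := by
  have h : Adm p (fun v => |phi v| ^ p) := by
    refine ⟨⟨fun v => by positivity, fun v w => ?_, fun r v => ?_⟩, ?_, ?_⟩
    · rw [map_add]
      exact abs_rpow_add_le hp hp1 _ _
    · rw [map_smul, smul_eq_mul, abs_mul, Real.mul_rpow (abs_nonneg _) (abs_nonneg _)]
    · rw [phi_e, abs_one, Real.one_rpow]
    · intro x y
      rw [map_sub, map_sub, phi_dlt, phi_dlt]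
  exact le_Q hp h v

/-! ### The normed group structure of a `p`-Banach space -/

/-- The norm `N ^ p` of a `p`-Banach space, as a group norm. -/
noncomputable abbrev PBanach.normed (hp : 0 < p) (Y : PBanach p) :
    NormedAddCommGroup Y.carrier :=
  AddGroupNorm.toNormedAddCommGroup
    { toFun := fun y => Y.N y ^ p
      map_zero' := by
        have h : Y.N 0 = 0 := by
          have := Y.N_smul 0 0
          rwa [smul_zero, abs_zero, zero_mul] at this
        rw [h, Real.zero_rpow hp.ne']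
      add_le' := Y.N_add
      neg' := by
        intro y
        have := Y.N_smul (-1) y
        rw [neg_one_smul, abs_neg, abs_one, one_mul] at this
        rw [this]
      eq_zero_of_map_eq_zero' := by
        intro y hy
        rw [Real.rpow_eq_zero (Y.N_nonneg y) hp.ne'] at hy
        exact Y.N_eq_zero y hy }

lemma PBanach.norm_def (hp : 0 < p) (Y : PBanach p) (y : Y.carrier) :
    letI := Y.normed hp
    ‖y‖ = Y.N y ^ p := rfl

lemma PBanach.completeSpace (hp : 0 < p) (Y : PBanach p) :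
    letI := Y.normed hp
    CompleteSpace Y.carrier := by
  let _ := Y.normed hp
  apply Metric.complete_of_cauchySeq_tendsto
  intro u hu
  rw [Metric.cauchySeq_iff] at hu
  obtain ⟨x, hx⟩ := Y.complete u (by
    intro ε hε
    obtain ⟨n₀, hn₀⟩ := hu ε hε
    refine ⟨n₀, fun m hm n hn => ?_⟩
    have := hn₀ m hm n hn
    rwa [dist_eq_norm] at this)
  refine ⟨x, ?_⟩
  rw [Metric.tendsto_atTop]
  intro ε hε
  obtain ⟨n₀, hn₀⟩ := hx ε hε
  refine ⟨n₀, fun n hn => ?_⟩
  rw [dist_eq_norm]
  exact hn₀ n hn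

lemma PBanach.norm_smul (hp : 0 < p) (Y : PBanach p) (r : ℝ) (y : Y.carrier) :
    letI := Y.normed hp
    ‖r • y‖ = |r| ^ p * ‖y‖ := by
  let _ := Y.normed hp
  show Y.N (r • y) ^ p = |r| ^ p * Y.N y ^ p
  rw [Y.N_smul, Real.mul_rpow (abs_nonneg _) (Y.N_nonneg _)]

/-- A complete normed group with `‖r • x‖ = |r| ^ p * ‖x‖` as a `p`-Banach space. -/
noncomputable def ofNormed (hp : 0 < p) (E : Type) [NormedAddCommGroup E] [Module ℝ E]
    [CompleteSpace E] (h : ∀ (r : ℝ) (x : E), ‖r • x‖ = |r| ^ p * ‖x‖) : PBanach p where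
  carrier := E
  N x := ‖x‖ ^ p⁻¹
  N_nonneg x := by positivity
  N_eq_zero x hx := by
    rw [Real.rpow_eq_zero (norm_nonneg _) (inv_ne_zero hp.ne')] at hx
    exact norm_eq_zero.mp hx
  N_smul t x := by
    rw [h, Real.mul_rpow (by positivity) (by positivity), Real.rpow_rpow_inv (abs_nonneg _) hp.ne']
  N_add x y := by
    rw [Real.rpow_inv_rpow (norm_nonneg _) hp.ne', Real.rpow_inv_rpow (norm_nonneg _) hp.ne',
      Real.rpow_inv_rpow (norm_nonneg _) hp.ne']
    exact norm_add_le x y
  complete u hu := by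
    have hc : CauchySeq u := by
      rw [Metric.cauchySeq_iff]
      intro ε hε
      obtain ⟨n₀, hn₀⟩ := hu ε hε
      refine ⟨n₀, fun m hm n hn => ?_⟩
      have := hn₀ m hm n hn
      rwa [Real.rpow_inv_rpow (norm_nonneg _) hp.ne', ← dist_eq_norm] at this
    obtain ⟨x, hx⟩ := cauchySeq_tendsto_of_complete hc
    refine ⟨x, fun ε hε => ?_⟩
    rw [Metric.tendsto_atTop] at hx
    obtain ⟨n₀, hn₀⟩ := hx ε hε
    refine ⟨n₀, fun n hn => ?_⟩
    rw [Real.rpow_inv_rpow (norm_nonneg _) hp.ne', ← dist_eq_norm]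
    exact hn₀ n hn

/-! ### The space -/

/-- The term model with the seminorm `Q p`. -/
def W (_p : ℝ) : Type := V

section space

variable [hp : Fact (0 < p)]

instance : AddCommGroup (W p) := inferInstanceAs (AddCommGroup V)
instance : Module ℝ (W p) := inferInstanceAs (Module ℝ V)

noncomputable instance : SeminormedAddCommGroup (W p) :=
  AddGroupSeminorm.toSeminormedAddCommGroup
    { toFun := fun v : V => Q p v
      map_zero' := (adm_Q hp.out).toIsQ.zero hp.out
      add_le' := (adm_Q hp.out).add_le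
      neg' := (adm_Q hp.out).toIsQ.neg }

lemma norm_W (v : W p) : ‖v‖ = Q p v := rfl

lemma norm_smul_W (r : ℝ) (v : W p) : ‖r • v‖ = |r| ^ p * ‖v‖ := (adm_Q hp.out).smul r v

instance : UniformContinuousConstSMul ℝ (W p) where
  uniformContinuous_const_smul r := by
    have : LipschitzWith (Real.toNNReal (|r| ^ p)) (fun v : W p => r • v) := by
      apply LipschitzWith.of_dist_le_mul
      intro v w
      rw [dist_eq_norm, dist_eq_norm, ← smul_sub, norm_smul_W,
        Real.coe_toNNReal _ (by positivity)]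
    exact this.uniformContinuous

/-- The completion. -/
abbrev XX (p : ℝ) [Fact (0 < p)] : Type := Completion (W p)

lemma norm_smul_XX (r : ℝ) (x : XX p) : ‖r • x‖ = |r| ^ p * ‖x‖ := by
  induction x using Completion.induction_on with
  | hp =>
    exact isClosed_eq (continuous_norm.comp (continuous_const_smul r))
      (continuous_const.mul continuous_norm)
  | ih v =>
    rw [← Completion.coe_smul, Completion.norm_coe, Completion.norm_coe, norm_smul_W]

variable (p) in
/-- The space as a `p`-Banach space. -/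
noncomputable def X : PBanach p := ofNormed hp.out (XX p) norm_smul_XX

/-- `δ` on the term model with its seminorm. -/
def dltW (v : W p) : W p := dlt v

lemma dltW_lipschitz : LipschitzWith 1 (dltW : W p → W p) := by
  apply LipschitzWith.of_dist_le_mul
  intro v w
  rw [dist_eq_norm, dist_eq_norm, NNReal.coe_one, one_mul]
  exact (adm_Q hp.out).dlt_le v w

/-- `δ` on the completion. -/
noncomputable def del : XX p → XX p := Completion.map dltW

lemma del_coe (v : W p) : del (v : XX p) = (dltW v : W p) :=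
  Completion.map_coe dltW_lipschitz.uniformContinuous v

lemma del_lipschitz : LipschitzWith 1 (del : XX p → XX p) :=
  dltW_lipschitz.completion_map

/-- The `p`-norm on the completion. -/
noncomputable def NX (x : XX p) : ℝ := ‖x‖ ^ p⁻¹

lemma NX_nonneg (x : XX p) : 0 ≤ NX x := Real.rpow_nonneg (norm_nonneg _) _

lemma NX_rpow (x : XX p) : NX x ^ p = ‖x‖ := Real.rpow_inv_rpow (norm_nonneg _) hp.out.ne'

lemma le_of_rpow_le {a b : ℝ} (ha : 0 ≤ a) (hb : 0 ≤ b) (h : a ^ p ≤ b ^ p) : a ≤ b :=
  (Real.rpow_le_rpow_iff ha hb hp.out).mp h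

lemma NX_del (x y : XX p) : NX (del x - del y) ≤ NX (x - y) := by
  apply le_of_rpow_le (p := p) (NX_nonneg _) (NX_nonneg _)
  rw [NX_rpow, NX_rpow]
  have := del_lipschitz.dist_le_mul x y
  rwa [dist_eq_norm, dist_eq_norm, NNReal.coe_one, one_mul] at this

lemma del_zero : del (0 : XX p) = 0 := by
  have h := del_coe (0 : W p)
  have h0 : dltW (0 : W p) = 0 := dlt_zero
  rwa [h0, Completion.coe_zero] at h

variable (p) in
/-- The inclusion of the term model in the completion. -/
noncomputable def inc : V →ₗ[ℝ] XX p where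
  toFun v := ((show W p from v : W p) : XX p)
  map_add' v w := Completion.coe_add (show W p from v) (show W p from w)
  map_smul' r v := Completion.coe_smul r (show W p from v)

lemma norm_inc (v : V) : ‖inc p v‖ = Q p v := Completion.norm_coe (show W p from v)

lemma del_inc (v : V) : del (inc p v) = inc p (dlt v) := del_coe (show W p from v)

lemma inc_dense : DenseRange (inc p) := Completion.denseRange_coe (α := W p)

/-- Bounded linear maps are continuous. -/
lemma cont_aux (Y : PBanach p) (S : XX p →ₗ[ℝ] Y.carrier)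
    (hS : ∃ C : ℝ, ∀ v, Y.N (S v) ≤ C * NX v) :
    letI := Y.normed hp.out
    Continuous S := by
  let _ := Y.normed hp.out
  obtain ⟨C, hC⟩ := hS
  have hC' : ∀ v, Y.N (S v) ≤ |C| * NX v := fun v =>
    (hC v).trans (mul_le_mul_of_nonneg_right (le_abs_self C) (NX_nonneg v))
  have : LipschitzWith (Real.toNNReal (|C| ^ p)) S := by
    apply LipschitzWith.of_dist_le_mul
    intro v w
    rw [dist_eq_norm, dist_eq_norm, ← map_sub, Real.coe_toNNReal _ (by positivity),
      PBanach.norm_def hp.out, ← NX_rpow, ← Real.mul_rpow (abs_nonneg _) (NX_nonneg _)]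
    exact Real.rpow_le_rpow (Y.N_nonneg _) (hC' _) hp.out.le
  exact this.continuous

/-- Two bounded linear maps which agree on `δ` agree. -/
lemma ext_aux (Y : PBanach p) (T T' : XX p →ₗ[ℝ] Y.carrier)
    (hT : ∃ C : ℝ, ∀ v, Y.N (T v) ≤ C * NX v) (hT' : ∃ C : ℝ, ∀ v, Y.N (T' v) ≤ C * NX v)
    (h : ∀ x, T (del x) = T' (del x)) : T = T' := by
  let _ := Y.normed hp.out
  have key : ∀ v : V, T (inc p v) = T' (inc p v) := by
    intro v
    have hd : ∀ w : V, T (inc p (dlt w)) = T' (inc p (dlt w)) := by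
      intro w
      have := h (inc p w)
      rwa [del_inc] at this
    induction v using V_induction with
    | he =>
      have := hd e
      rwa [dlt_e] at this
    | h0 =>
      have := hd 0
      rwa [dlt_zero] at this
    | hadd v w ihv ihw => rw [map_add, map_add, map_add, ihv, ihw]
    | hsmul r v ih => rw [map_smul, map_smul, map_smul, ih]
    | hdlt v ih => exact hd v
  apply LinearMap.ext
  intro x
  exact inc_dense.induction_on x (isClosed_eq (cont_aux Y T hT) (cont_aux Y T' hT')) key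

/-- Bounded linear maps on the term model extend to the completion. -/
lemma extend_aux (Y : PBanach p) (T₀ : V →ₗ[ℝ] Y.carrier) (L : ℝ) (hL : 0 ≤ L)
    (hb : ∀ v : V, Y.N (T₀ v) ^ p ≤ L ^ p * Q p v) :
    ∃ T : XX p →ₗ[ℝ] Y.carrier, (∀ v, Y.N (T v) ≤ L * NX v) ∧ ∀ v, T (inc p v) = T₀ v := by
  let _ := Y.normed hp.out
  have _ := Y.completeSpace hp.out
  have hLp : 0 ≤ L ^ p := Real.rpow_nonneg hL p
  let A : W p →+ Y.carrier := T₀.toAddMonoidHom
  have hA : Continuous A := by
    have : LipschitzWith (Real.toNNReal (L ^ p)) A := by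
      apply LipschitzWith.of_dist_le_mul
      intro v w
      rw [dist_eq_norm, dist_eq_norm, ← map_sub, Real.coe_toNNReal _ hLp]
      exact hb (v - w)
    exact this.continuous
  let B : XX p →+ Y.carrier := A.extension hA
  have hB : Continuous B := A.continuous_extension hA
  have hBi : ∀ v : V, B (inc p v) = T₀ v := fun v => A.extension_coe hA _
  have hsm : ∀ r : ℝ, Continuous (fun y : Y.carrier => r • y) := by
    intro r
    have : LipschitzWith (Real.toNNReal (|r| ^ p)) (fun v : Y.carrier => r • v) := by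
      apply LipschitzWith.of_dist_le_mul
      intro v w
      rw [dist_eq_norm, dist_eq_norm, ← smul_sub, Y.norm_smul hp.out,
        Real.coe_toNNReal _ (by positivity)]
    exact this.continuous
  have hBs : ∀ (r : ℝ) (x : XX p), B (r • x) = r • B x := by
    intro r x
    refine inc_dense.induction_on x (isClosed_eq (hB.comp (continuous_const_smul r))
      ((hsm r).comp hB)) ?_
    intro v
    rw [← map_smul (inc p), hBi, hBi, map_smul]
  let T : XX p →ₗ[ℝ] Y.carrier := { B with map_smul' := hBs }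
  have hTn : ∀ x, ‖T x‖ ≤ L ^ p * ‖x‖ := by
    intro x
    refine inc_dense.induction_on x (isClosed_le (continuous_norm.comp hB)
      (continuous_const.mul continuous_norm)) ?_
    intro v
    show ‖B (inc p v)‖ ≤ L ^ p * ‖inc p v‖
    rw [hBi, norm_inc]
    exact hb v
  refine ⟨T, fun v => ?_, hBi⟩
  apply le_of_rpow_le (p := p) (Y.N_nonneg _) (mul_nonneg hL (NX_nonneg _))
  rw [Real.mul_rpow hL (NX_nonneg _), NX_rpow]
  exact hTn v

/-- The lifting property. -/
lemma lift_aux (Y : PBanach p) (f : XX p → Y.carrier) (L : ℝ) (hL : 0 ≤ L) (hf0 : f 0 = 0)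
    (hf : ∀ x y, Y.N (f x - f y) ≤ L * NX (x - y)) :
    ∃ T : XX p →ₗ[ℝ] Y.carrier, (∀ v, Y.N (T v) ≤ L * NX v) ∧ ∀ x, T (del x) = f x := by
  rcases hL.eq_or_lt with hL0 | hLpos
  · refine ⟨0, fun v => ?_, fun x => ?_⟩
    · have h : Y.N 0 = 0 := by
        have := Y.N_smul 0 0
        rwa [smul_zero, abs_zero, zero_mul] at this
      rw [LinearMap.zero_apply, h, ← hL0, zero_mul]
    · have h1 := hf x 0
      rw [← hL0, zero_mul, hf0, sub_zero] at h1
      exact (Y.N_eq_zero _ (le_antisymm h1 (Y.N_nonneg _))).symm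
  let _ := Y.normed hp.out
  have hLp : 0 < L ^ p := Real.rpow_pos_of_pos hLpos p
  have hfn : ∀ x y, ‖f x - f y‖ ≤ L ^ p * ‖x - y‖ := by
    intro x y
    rw [PBanach.norm_def hp.out, ← NX_rpow, ← Real.mul_rpow hL (NX_nonneg _)]
    exact Real.rpow_le_rpow (Y.N_nonneg _) (hf _ _) hp.out.le
  have hfc : Continuous f := by
    have : LipschitzWith (Real.toNNReal (L ^ p)) f := by
      apply LipschitzWith.of_dist_le_mul
      intro v w
      rw [dist_eq_norm, dist_eq_norm, Real.coe_toNNReal _ hLp.le]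
      exact hfn v w
    exact this.continuous
  have hg0 : f (inc p 0) = 0 := by rw [map_zero, hf0]
  set T₀ : V →ₗ[ℝ] Y.carrier := liftV (fun v => f (inc p v)) hg0 with hT₀
  have hT₀d : ∀ v : V, T₀ (dlt v) = f (inc p v) := liftV_dlt _ hg0
  have hb : ∀ v : V, ‖T₀ v‖ ≤ L ^ p * Q p v := by
    have hq : IsQ p (fun v => ‖T₀ v‖ / L ^ p) := by
      refine ⟨fun v => by positivity, fun v w => ?_, fun r v => ?_⟩
      · rw [map_add, ← add_div]
        exact div_le_div_of_nonneg_right (norm_add_le _ _) hLp.le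
      · rw [map_smul, Y.norm_smul hp.out, mul_div_assoc]
    intro v
    have := le_Q_of_dlt hp.out hq (by
      intro x y
      show ‖T₀ (dlt x - dlt y)‖ / L ^ p ≤ Q p (x - y)
      rw [map_sub, hT₀d, hT₀d, div_le_iff₀' hLp, ← norm_inc, map_sub]
      exact hfn (inc p x) (inc p y)) v
    rwa [div_le_iff₀' hLp] at this
  obtain ⟨T, hT, hTi⟩ := extend_aux Y T₀ L hL hb
  refine ⟨T, hT, fun x => ?_⟩
  refine inc_dense.induction_on x
    (isClosed_eq ((cont_aux Y T ⟨L, hT⟩).comp del_lipschitz.continuous) hfc) ?_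
  intro v
  rw [del_inc, hTi, hT₀d]

variable (p) in
/-- The space `X` is a Lipschitz free `p`-space over itself. -/
theorem isFree_X : IsLipschitzFree (fun x y => (X p).N (x - y)) 0 (X p) del where
  map_base := del_zero
  lipschitz := NX_del
  lift Y f L hL hf0 hf := lift_aux Y f L hL hf0 hf
  unique Y T T' hT hT' h := ext_aux Y T T' hT hT' h

/-- The real line as a `p`-Banach space. -/
noncomputable def line (hp1 : p ≤ 1) : PBanach p where
  carrier := ℝ
  N x := |x|
  N_nonneg x := abs_nonneg x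
  N_eq_zero x hx := abs_eq_zero.mp hx
  N_smul t x := abs_mul t x
  N_add x y := abs_rpow_add_le hp.out hp1 x y
  complete u hu := by
    have hc : CauchySeq u := by
      rw [Metric.cauchySeq_iff]
      intro ε hε
      obtain ⟨n₀, hn₀⟩ := hu (ε ^ p) (Real.rpow_pos_of_pos hε p)
      refine ⟨n₀, fun m hm n hn => ?_⟩
      have := hn₀ m hm n hn
      rw [Real.rpow_lt_rpow_iff (abs_nonneg _) hε.le hp.out] at this
      rwa [Real.dist_eq]
    obtain ⟨x, hx⟩ := cauchySeq_tendsto_of_complete hc
    refine ⟨x, fun ε hε => ?_⟩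
    rw [Metric.tendsto_atTop] at hx
    obtain ⟨n₀, hn₀⟩ := hx (ε ^ p⁻¹) (Real.rpow_pos_of_pos hε _)
    refine ⟨n₀, fun n hn => ?_⟩
    have := hn₀ n hn
    rw [Real.dist_eq] at this
    calc |u n - x| ^ p < (ε ^ p⁻¹) ^ p :=
          Real.rpow_lt_rpow (abs_nonneg _) this hp.out
      _ = ε := Real.rpow_inv_rpow hε.le hp.out.ne'

/-- The barycentre functional on the completion. -/
lemma exists_phi (hp1 : p ≤ 1) :
    ∃ T : XX p →ₗ[ℝ] ℝ, (∀ x, |T x| ≤ NX x) ∧ ∀ v, T (inc p v) = phi v := by
  obtain ⟨T, hT, hTi⟩ := extend_aux (line hp1) phi 1 zero_le_one (by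
    intro v
    rw [Real.one_rpow, one_mul]
    exact phi_le_Q hp.out hp1 v)
  refine ⟨T, fun x => ?_, hTi⟩
  have := hT x
  rwa [one_mul] at this

/-- Functionals obtained from `1`-Lipschitz functions on the line. -/
lemma exists_functional (hp1 : p ≤ 1) (h : ℝ → ℝ) (h0 : h 0 = 0)
    (hl : ∀ s t, |h s - h t| ≤ |s - t|) :
    ∃ T : XX p →ₗ[ℝ] ℝ, ∀ t : ℝ, T (del (inc p (t • e))) = h t := by
  obtain ⟨F, hF, hFi⟩ := exists_phi (p := p) hp1
  obtain ⟨T, -, hT⟩ := lift_aux (line hp1) (fun x => h (F x)) 1 zero_le_one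
    (show h (F 0) = 0 by rw [map_zero, h0]) (by
      intro x y
      rw [one_mul]
      refine (hl (F x) (F y)).trans ?_
      rw [← map_sub]
      exact hF _)
  refine ⟨T, fun t => (hT _).trans ?_⟩
  show h (F (inc p (t • e))) = h t
  rw [hFi, map_smul, phi_e, smul_eq_mul, mul_one]

/-- The bump function at `m + 1`. -/
noncomputable def bump (m : ℕ) (t : ℝ) : ℝ := max 0 (1 - |t - (m + 1)|)

lemma bump_zero (m : ℕ) : bump m 0 = 0 := by
  unfold bump
  have : (0 : ℝ) ≤ m := Nat.cast_nonneg m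
  rw [zero_sub, abs_neg, abs_of_pos (by linarith)]
  exact max_eq_left (by linarith)

lemma bump_lip (m : ℕ) (s t : ℝ) : |bump m s - bump m t| ≤ |s - t| := by
  unfold bump
  have h1 : |max (0 : ℝ) (1 - |s - (m + 1)|) - max 0 (1 - |t - (m + 1)|)| ≤
      |(1 - |s - (m + 1)|) - (1 - |t - (m + 1)|)| := by
    rw [max_comm 0, max_comm 0]
    exact abs_max_sub_max_le_abs _ _ _
  refine h1.trans ?_
  have h2 : (1 - |s - (m + 1)|) - (1 - |t - (m + 1)|) = |t - (m + 1)| - |s - (m + 1)| := by ring
  rw [h2]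
  refine (abs_abs_sub_abs_le_abs_sub _ _).trans ?_
  have h3 : t - (m + 1) - (s - (m + 1)) = -(s - t) := by ring
  rw [h3, abs_neg]

lemma infinite_dim (hp1 : p ≤ 1) : ¬ FiniteDimensional ℝ (XX p) := by
  intro hfin
  choose T hT using fun m : ℕ => exists_functional (p := p) hp1 (bump m) (bump_zero m) (bump_lip m)
  have hli : LinearIndependent ℝ (fun n : ℕ => del (inc p (((n : ℝ) + 1) • e))) := by
    apply LinearIndependent.of_pairwise_dual_eq_zero_one _ T
    · intro i j hij
      rw [hT]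
      unfold bump
      apply max_eq_left
      have h1 : (j : ℝ) + 1 - (i + 1) = ((j - i : ℤ) : ℝ) := by
        push_cast
        ring
      have h2 : (1 : ℤ) ≤ |(j : ℤ) - i| := by
        apply Int.one_le_abs
        intro h
        exact hij (by omega)
      rw [h1, ← Int.cast_abs]
      have h3 : (1 : ℝ) ≤ ((|(j : ℤ) - i| : ℤ) : ℝ) := by exact_mod_cast h2
      linarith
    · intro i
      rw [hT]
      unfold bump
      rw [sub_self, abs_zero, sub_zero, max_eq_right zero_le_one]
  have hfin' : Finite ℕ := hli.finite_of_isNoetherian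
  exact not_finite ℕ

end space

/-- Two Lipschitz free `p`-spaces over the same space are isometrically isomorphic. -/
lemma free_unique {M : Type} {d : M → M → ℝ} {o : M} {F G : PBanach p} {δ : M → F.carrier}
    {δ' : M → G.carrier} (hF : IsLipschitzFree d o F δ) (hG : IsLipschitzFree d o G δ') :
    ∃ J : F.carrier ≃ₗ[ℝ] G.carrier, (∀ v, G.N (J v) = F.N v) ∧ ∀ x, J (δ x) = δ' x := by
  obtain ⟨T, hT, hTd⟩ := hF.lift G δ' 1 zero_le_one hG.map_base (by
    intro x y
    rw [one_mul]
    exact hG.lipschitz x y)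
  obtain ⟨S, hS, hSd⟩ := hG.lift F δ 1 zero_le_one hF.map_base (by
    intro x y
    rw [one_mul]
    exact hF.lipschitz x y)
  simp only [one_mul] at hT hS
  have h1 : S ∘ₗ T = LinearMap.id := by
    apply hF.unique F _ _ ⟨1, fun v => ?_⟩ ⟨1, fun v => ?_⟩ (fun x => ?_)
    · rw [one_mul]
      exact (hS _).trans (hT _)
    · rw [one_mul, LinearMap.id_apply]
    · rw [LinearMap.comp_apply, hTd, hSd, LinearMap.id_apply]
  have h2 : T ∘ₗ S = LinearMap.id := by
    apply hG.unique G _ _ ⟨1, fun v => ?_⟩ ⟨1, fun v => ?_⟩ (fun x => ?_)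
    · rw [one_mul]
      exact (hT _).trans (hS _)
    · rw [one_mul, LinearMap.id_apply]
    · rw [LinearMap.comp_apply, hSd, hTd, LinearMap.id_apply]
  refine ⟨LinearEquiv.ofLinearMap T S h2 h1, fun v => ?_, fun x => hTd x⟩
  apply le_antisymm (hT v)
  have := hS (T v)
  rwa [← LinearMap.comp_apply, h1, LinearMap.id_apply] at this

/-- For every `0 < p ≤ 1` there is an infinite-dimensional `p`-Banach space `X` such that the
Lipschitz free `p`-space over `X` (with the `p`-metric `‖x - y‖` and base point `0`) exists and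
is isometrically isomorphic to `X`. -/
theorem result (p : ℝ) (hp : 0 < p) (hp1 : p ≤ 1) :
    ∃ X : PBanach p, ¬ FiniteDimensional ℝ X.carrier ∧
      (∃ (F : PBanach p) (δ : X.carrier → F.carrier),
        IsLipschitzFree (fun x y => X.N (x - y)) 0 F δ) ∧
      ∀ (F : PBanach p) (δ : X.carrier → F.carrier),
        IsLipschitzFree (fun x y => X.N (x - y)) 0 F δ →
        ∃ J : F.carrier ≃ₗ[ℝ] X.carrier, ∀ v, X.N (J v) = F.N v := by
  have _ : Fact (0 < p) := ⟨hp⟩
  refine ⟨X p, infinite_dim hp1, ⟨X p, del, isFree_X p⟩, fun F δ hF => ?_⟩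
  obtain ⟨J, hJ, -⟩ := free_unique hF (isFree_X p)
  exact ⟨J, hJ⟩

end Pool.Agent.Results.MP_fdacb0_an.FreeFixedPoint
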